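import Pool.Agent.Helper36.CQ.St

/-!
# Project CQ, module RHO
-/

set_option autoImplicit false

namespace Pool.Agent.Helper28.CQ

open Pool.Agent.Helper83.CK Pool.Agent.Helper36.CQ Cardinal Set

universe u

/-- iterated successors below a limit of the successor operation -/
theorem iter_succ_lt {ν : Cardinal.{u}} (h : ∀ c < ν, Order.succ c < ν) (m : ℕ) :
    ∀ c < ν, Order.succ^[m] c < ν := by
  induction m with
  | zero => intro c hc; simpa using hc
  | succ m ih =>
    intro c hc
    rw [Function.iterate_succ_apply]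
    exact ih _ (h c hc)

/-- a surjection of the Cantor space onto a nonempty countable type -/
theorem exists_surj_cantor (T : Type) [Countable T] [Nonempty T] :
    ∃ θ : (ℕ → Bool) → T, Function.Surjective θ := by
  obtain ⟨f, hf⟩ := exists_surjective_nat T
  have hinj := (Infinite.natEmbedding (ℕ → Bool)).injective
  exact ⟨f ∘ Function.invFun (Infinite.natEmbedding (ℕ → Bool)),
    hf.comp (Function.invFun_surjective hinj)⟩

open Classical in
/-- the operations used in module RHO -/
noncomputable def ops {α : Type u} {K R : Set α} (b : (ℕ → R) → K) (H : Set R → R) (h : ℕ → (ℕ → α) → α) :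
    Option (Option ℕ) → (ℕ → α) → α
  | none, x => if hx : ∀ j, x j ∈ R then (b (fun j => ⟨x j, hx j⟩) : α) else x 0
  | some none, x => if hx : ∀ j, x j ∈ R then (H (Set.range fun j => (⟨x j, hx j⟩ : R)) : α) else x 0
  | some (some j), x => h j x

/-- MODULE RHO -/
theorem mRHO (hQ : Pool.Agent.Helper83.CK.StQ.{u}) (hH : Pool.Agent.Helper83.CK.StH.{u}) : StRho.{u} := by
  intro α K ρ n hρ hlim hρK hα hKρ hCh
  obtain ⟨R, hRK, hR⟩ := Cardinal.le_mk_iff_exists_subset.mp hρK
  obtain ⟨h, hh⟩ := hQ n α R (by rw [hR]; exact hρ.le) (by rw [hR]; exact hα)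
  obtain ⟨H, hHp⟩ := hH R (by rw [hR]; exact hρ.le)
  have hKne : Nonempty K := by
    rw [← Cardinal.mk_ne_zero_iff]
    exact (lt_of_lt_of_le (Cardinal.aleph0_pos.trans hρ) hρK).ne'
  have hpow : #(ℕ → R) = ρ ^ ℵ₀ := by
    rw [Cardinal.mk_arrow]
    simp only [Cardinal.lift_uzero, Cardinal.mk_nat, Cardinal.lift_aleph0]
    rw [hR]
  obtain ⟨e⟩ : Nonempty (K ↪ (ℕ → R)) := by
    rw [← Cardinal.le_def, hpow]
    exact hKρ
  have hb : Function.Surjective (Function.invFun e) := Function.invFun_surjective e.injective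
  obtain ⟨θ, hθ⟩ := exists_surj_cantor (Option (Option ℕ))
  obtain ⟨A, hcl, hKA, hAK⟩ := hCh (fun i x => ops (Function.invFun e) H h (θ i) x)
  have hcl' : ∀ (t : Option (Option ℕ)) (x : ℕ → α), (∀ n, x n ∈ A) → ops (Function.invFun e) H h t x ∈ A := by
    intro t x hx
    obtain ⟨i, rfl⟩ := hθ t
    exact hcl i x hx
  -- the size of `A ∩ R`
  have h1 : #(A ∩ R : Set α) = ρ := by
    apply le_antisymm
    · rw [← hR]
      exact Cardinal.mk_le_mk_of_subset Set.inter_subset_right
    · by_contra hcon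
      rw [not_le] at hcon
      have h2 : #A ≤ Order.succ^[n] (max ℵ₀ #(A ∩ R : Set α)) :=
        hh A (fun j x hx => hcl' (some (some j)) x hx)
      have h3 := iter_succ_lt hlim n _ (max_lt hρ hcon)
      exact absurd (hKA.trans h2) (not_le.mpr (h3.trans_le hρK))
  -- `R ⊆ A`
  have h2 : R ⊆ A := by
    intro c hc
    have hB : #({r : R | (r : α) ∈ A} : Set R) = #R := by
      rw [hR, ← h1]
      refine Cardinal.mk_congr ⟨fun r => ⟨((r : R) : α), r.2, (r : R).2⟩,
        fun a => ⟨⟨(a : α), a.2.2⟩, a.2.1⟩, fun r => rfl, fun a => rfl⟩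
    obtain ⟨s, hsB, hs, hHs⟩ := hHp _ hB ⟨c, hc⟩
    obtain ⟨hd⟩ := Cardinal.denumerable_iff.mpr hs
    have hr : Set.range (fun j : ℕ => (((Denumerable.eqv s).symm j : s) : R)) = s := by
      ext r
      constructor
      · rintro ⟨j, rfl⟩
        exact ((Denumerable.eqv s).symm j).2
      · intro hr
        exact ⟨Denumerable.eqv s ⟨r, hr⟩, by simp⟩
    have h3 := hcl' (some none) (fun j => ((((Denumerable.eqv s).symm j : s) : R) : α))
      (fun j => hsB ((Denumerable.eqv s).symm j).2)
    have h4 : ∀ j : ℕ, ((((Denumerable.eqv s).symm j : s) : R) : α) ∈ R := fun j => (((Denumerable.eqv s).symm j : s) : R).2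
    simp only [ops] at h3
    rw [dif_pos h4] at h3
    have h5 : H (Set.range fun j : ℕ => (⟨((((Denumerable.eqv s).symm j : s) : R) : α), h4 j⟩ : R)) = ⟨c, hc⟩ := by
      rw [← hHs]
      exact congrArg H hr
    rw [h5] at h3
    exact h3
  -- `K ⊆ A`
  have h3 : K ⊆ A := by
    intro y hy
    obtain ⟨g, hg⟩ := hb ⟨y, hy⟩
    have h4 := hcl' none (fun j => (g j : α)) (fun j => h2 (g j).2)
    have h5 : ∀ j, ((g j : α)) ∈ R := fun j => (g j).2
    simp only [ops] at h4
    rw [dif_pos h5] at h4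
    have h6 : Function.invFun e (fun j => (⟨(g j : α), h5 j⟩ : R)) = ⟨y, hy⟩ := hg
    rw [h6] at h4
    exact h4
  rw [Set.inter_eq_right.mpr h3] at hAK
  exact lt_irrefl _ hAK

end Pool.Agent.Helper28.CQ
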